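import Pool.Agent.T9h59.SR.Tri

/-!
# Frobenius descent of relations
-/

set_option autoImplicit false

namespace Pool.Agent.T9h46.SR

open Finset
open Pool.Agent.T9h59.SR

/-- if the relations are stable under the Frobenius map, then they are defined over the prime
field -/
theorem descent {p : ℕ} [Fact p.Prime] {L : Type} [Field L] [Algebra (ZMod p) L] {I Bt : Type}
    [Fintype Bt] (v : Bt → I → L)
    (hf : ∀ c : Bt → L, ∑ b, c b • v b = 0 → ∑ b, c b ^ p • v b = 0)
    (R : Submodule (ZMod p) (Bt → ZMod p))
    (hR : ∀ l : Bt → ZMod p, ∑ b, algebraMap (ZMod p) L (l b) • v b = 0 → l ∈ R) :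
    Fintype.card Bt ≤ Module.finrank (ZMod p) R +
      Module.finrank L (Submodule.span L (Set.range v)) := by
  classical
  have : CharP L p := charP_of_injective_algebraMap (algebraMap (ZMod p) L).injective p
  obtain ⟨κ, a, ha, hsp, hli⟩ := exists_linearIndependent' L v
  have : Finite κ := Finite.of_injective a ha
  have := Fintype.ofFinite κ
  have hcard : Module.finrank L (Submodule.span L (Set.range v)) = Fintype.card κ := by
    rw [← hsp]
    exact finrank_span_eq_card hli
  have h1 : ∀ b, ∃ c : κ → ZMod p, v b = ∑ k, algebraMap (ZMod p) L (c k) • v (a k) := by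
    intro b
    have h2 : v b ∈ Submodule.span L (Set.range (v ∘ a)) := by
      rw [hsp]; exact Submodule.subset_span ⟨b, rfl⟩
    obtain ⟨c, hc⟩ := (Submodule.mem_span_range_iff_exists_fun L).1 h2
    -- the relation
    have e2 : ∑ b', (if b' = b then (-1 : L) else 0) • v b' = - v b := by
      simp only [ite_smul, zero_smul, sum_ite_eq', mem_univ, if_true, neg_smul, one_smul]
    have h3 : ∑ b', ((if b' = b then (-1 : L) else 0) + ∑ k, if a k = b' then c k else 0) • v b' =
        0 := by
      simp only [add_smul, sum_add_distrib, sum_smul]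
      rw [sum_comm (s := univ (α := Bt))]
      have e1 : ∀ k, ∑ b', (if a k = b' then c k else 0) • v b' = c k • v (a k) := by
        intro k
        simp only [ite_smul, zero_smul, sum_ite_eq, mem_univ, if_true]
      rw [sum_congr rfl fun k _ => e1 k, e2]
      simp only [Function.comp_apply] at hc
      rw [hc, neg_add_cancel]
    have h4 := hf _ h3
    have h5 : ∀ b', ((if b' = b then (-1 : L) else 0) + ∑ k, if a k = b' then c k else 0) ^ p =
        (if b' = b then (-1 : L) else 0) + ∑ k, if a k = b' then c k ^ p else 0 := by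
      intro b'
      have e0 : ∀ x : L, x ^ p = frobenius L p x := fun x => rfl
      simp only [e0, map_add, map_sum]
      congr 1
      · split_ifs <;> simp
      · refine sum_congr rfl fun k _ => ?_
        split_ifs <;> simp
    have h6 : ∑ k, c k ^ p • v (a k) = v b := by
      simp only [h5, add_smul, sum_add_distrib, sum_smul] at h4
      rw [sum_comm (s := univ (α := Bt)) (t := univ (α := κ))] at h4
      have e1 : ∀ k, ∑ b', (if a k = b' then c k ^ p else 0) • v b' = c k ^ p • v (a k) := by
        intro k
        simp only [ite_smul, zero_smul, sum_ite_eq, mem_univ, if_true]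
      rw [sum_congr rfl fun k _ => e1 k, e2] at h4
      exact (neg_add_eq_zero.1 h4).symm
    have h7 : ∀ k, c k ^ p = c k := by
      rw [Fintype.linearIndependent_iff] at hli
      have h8 := hli (fun k => c k ^ p - c k) (by
        simp only [sub_smul, sum_sub_distrib, Function.comp_apply] at hc ⊢
        rw [h6, hc, sub_self])
      intro k
      exact sub_eq_zero.1 (h8 k)
    have h9 : ∀ k, ∃ d : ZMod p, algebraMap (ZMod p) L d = c k := by
      intro k
      have h10 := (Subfield.mem_bot_iff_pow_eq_self L p).2 (h7 k)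
      rw [← ZMod.fieldRange_castHom_eq_bot p] at h10
      obtain ⟨d, hd⟩ := h10
      exact ⟨d, by rw [← hd]; exact congrArg (fun f : ZMod p →+* L => f d) (Subsingleton.elim _ _)⟩
    choose d hd using h9
    refine ⟨d, ?_⟩
    simp only [hd]
    exact hc.symm
  choose C hC using h1
  let Φ : (Bt → ZMod p) →ₗ[ZMod p] (κ → ZMod p) :=
    { toFun := fun l k => ∑ b, l b * C b k
      map_add' := by
        intro x y; funext k
        simp only [Pi.add_apply, add_mul, sum_add_distrib]
      map_smul' := by
        intro m x; funext k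
        simp only [Pi.smul_apply, smul_eq_mul, RingHom.id_apply, mul_sum, mul_assoc] }
  have h2 : LinearMap.ker Φ ≤ R := by
    intro l hl
    apply hR
    have h3 : ∀ k, ∑ b, l b * C b k = 0 := fun k => congrFun (LinearMap.mem_ker.1 hl) k
    calc ∑ b, algebraMap (ZMod p) L (l b) • v b
        = ∑ b, ∑ k, algebraMap (ZMod p) L (l b * C b k) • v (a k) := by
          refine sum_congr rfl fun b _ => ?_
          conv_lhs => rw [hC b, smul_sum]
          refine sum_congr rfl fun k _ => ?_
          rw [smul_smul, map_mul]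
      _ = ∑ k, algebraMap (ZMod p) L (∑ b, l b * C b k) • v (a k) := by
          rw [sum_comm]
          refine sum_congr rfl fun k _ => ?_
          rw [map_sum, sum_smul]
      _ = 0 := by
          refine sum_eq_zero fun k _ => ?_
          rw [h3 k, map_zero, zero_smul]
  have h3 := LinearMap.finrank_range_add_finrank_ker Φ
  have h4 : Module.finrank (ZMod p) (LinearMap.range Φ) ≤ Fintype.card κ := by
    refine (Submodule.finrank_le _).trans ?_
    rw [Module.finrank_fintype_fun_eq_card]
  have h5 : Module.finrank (ZMod p) (LinearMap.ker Φ) ≤ Module.finrank (ZMod p) R :=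
    Submodule.finrank_mono h2
  rw [Module.finrank_fintype_fun_eq_card] at h3
  rw [hcard]
  omega

/-- every primitive root is the `p`-th power of a primitive root -/
lemma exists_root {p e : ℕ} (hpe : Nat.Coprime p e) (he : 1 < e) {L : Type} [Field L] {ξ : L}
    (hξ : IsPrimitiveRoot ξ e) : ∃ ζ : L, IsPrimitiveRoot ζ e ∧ ζ ^ p = ξ := by
  obtain ⟨u, -, hu⟩ := Nat.exists_mul_mod_eq_one_of_coprime hpe he
  have hc : Nat.Coprime (p * u) e := by
    rw [Nat.Coprime, Nat.gcd_comm, Nat.gcd_rec, hu, Nat.gcd_one_left]
  refine ⟨ξ ^ u, hξ.pow_of_coprime u (Nat.Coprime.coprime_mul_left hc), ?_⟩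
  rw [← pow_mul, mul_comm, pow_eq_pow_mod (p * u) hξ.pow_eq_one, hu, pow_one]

lemma frob_ct {p : ℕ} [Fact p.Prime] {L : Type} [Field L] [CharP L p] (z : L) :
    ct z ^ p = ct (z ^ p) := by
  have e0 : ∀ x : L, x ^ p = frobenius L p x := fun x => rfl
  unfold ct
  simp only [e0, map_div₀, map_add, map_sub, map_one]

theorem stD1 : StD1 := by
  intro p _ e he hep
  have hp := (Fact.out : p.Prime)
  have hpe : Nat.Coprime p e := by
    rw [hp.coprime_iff_not_dvd]
    intro h
    exact absurd (Nat.le_of_dvd (by omega) h) (by omega)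
  have h := descent (p := p) (L := AlgebraicClosure (ZMod p))
    (I := {ζ : AlgebraicClosure (ZMod p) // IsPrimitiveRoot ζ e}) (Bt := B e)
    (fun b ζ => ct ((ζ : AlgebraicClosure (ZMod p)) ^ (b : ℕ))) ?_ (Ker p e) ?_
  · rw [Fintype.card_coe] at h
    exact h
  · intro c hc
    funext ⟨ξ, hξ⟩
    obtain ⟨ζ, hζ, rfl⟩ := exists_root hpe (by omega) hξ
    have h1 := congrFun hc ⟨ζ, hζ⟩
    simp only [Finset.sum_apply, Pi.smul_apply, smul_eq_mul, Pi.zero_apply] at h1 ⊢
    have h2 := congrArg (frobenius (AlgebraicClosure (ZMod p)) p) h1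
    simp only [map_sum, map_mul, map_zero, frobenius_def, frob_ct] at h2
    rw [← h2]
    refine sum_congr rfl fun b _ => ?_
    rw [← pow_mul, ← pow_mul, mul_comm p]
  · intro l hl ζ hζ
    have h1 := congrFun hl ⟨ζ, hζ⟩
    simp only [Finset.sum_apply, Pi.smul_apply, smul_eq_mul, Pi.zero_apply] at h1
    exact h1

end Pool.Agent.T9h46.SR
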