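import Pool.Agent.T9h46.SR.D1

/-!
# The products of two cotangents have full rank
-/

set_option autoImplicit false

namespace Pool.Agent.T9h46.SR

open Finset
open Pool.Agent.T9h59.SR

/-- relations over a subfield and rank -/
theorem ascent {K L : Type} [Field K] [Field L] [Algebra K L] {I X : Type}
    [Fintype X] (w : X → I → L) (R : Submodule K (X → K))
    (hR : ∀ l ∈ R, ∑ x, algebraMap K L (l x) • w x = 0) :
    Module.finrank K R + Module.finrank L (Submodule.span L (Set.range w)) ≤ Fintype.card X := by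
  classical
  obtain ⟨κ, a, ha, hsp, hli⟩ := exists_linearIndependent' L w
  have : Finite κ := Finite.of_injective a ha
  have := Fintype.ofFinite κ
  have hcard : Module.finrank L (Submodule.span L (Set.range w)) = Fintype.card κ := by
    rw [← hsp]
    exact finrank_span_eq_card hli
  let ρ : R →ₗ[K] ({x // x ∉ Set.range a} → K) :=
    { toFun := fun l x => l.1 x.1
      map_add' := fun _ _ => rfl
      map_smul' := fun _ _ => rfl }
  have hρ : Function.Injective ρ := by
    rw [injective_iff_map_eq_zero]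
    rintro ⟨l, hl⟩ h
    have h1 : ∀ x, x ∉ Set.range a → l x = 0 := fun x hx => congrFun h ⟨x, hx⟩
    have h2 := hR l hl
    have h3 : ∑ k, algebraMap K L (l (a k)) • (w ∘ a) k = 0 := by
      rw [← h2]
      rw [← Finset.sum_subset (Finset.subset_univ (univ.image a))]
      · rw [sum_image (fun x _ y _ h => ha h)]
        rfl
      · intro x _ hx
        rw [h1 x, map_zero, zero_smul]
        rintro ⟨k, hk⟩
        exact hx (mem_image.2 ⟨k, mem_univ _, hk⟩)
    rw [Fintype.linearIndependent_iff] at hli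
    have h4 := hli _ h3
    have h5 : l = 0 := by
      funext x
      by_cases hx : x ∈ Set.range a
      · obtain ⟨k, rfl⟩ := hx
        have h6 := h4 k
        rwa [map_eq_zero] at h6
      · exact h1 x hx
    exact Subtype.ext h5
  have h1 := LinearMap.finrank_le_finrank_of_injective hρ
  rw [Module.finrank_fintype_fun_eq_card, Fintype.card_subtype_compl] at h1
  have h2 : Fintype.card {x // x ∈ Set.range a} = Fintype.card κ :=
    (Fintype.card_congr (Equiv.ofInjective a ha)).symm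
  have h3 : Fintype.card κ ≤ Fintype.card X := Fintype.card_le_of_injective a ha
  rw [hcard]
  rw [h2] at h1
  omega

lemma cop_sub {a e : ℕ} (h : a ≤ e) (hc : Nat.Coprime a e) : Nat.Coprime (e - a) e := by
  have h1 : Nat.Coprime (e - a) a := (Nat.coprime_sub_self_left h).2 hc.symm
  have h2 : Nat.Coprime (e - a) ((e - a) + a) := Nat.coprime_self_add_right.2 h1
  rwa [Nat.sub_add_cancel h] at h2

lemma two_card_B {e : ℕ} (he : 3 ≤ e) : 2 * #(B e) = Nat.totient e := by
  classical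
  have hh : ∀ b, Nat.Coprime b e → 2 * b ≠ e := by
    intro b hb h
    have h1 : b ∣ e := ⟨2, by omega⟩
    have h2 : b = 1 := by
      have := Nat.gcd_eq_left h1
      rw [hb] at this
      exact this.symm
    omega
  have h1 : (range e).filter (fun a => Nat.Coprime e a) = B e ∪ (B e).image (fun b => e - b) := by
    ext a
    rw [mem_filter, mem_range, mem_union, mem_image, mem_B]
    constructor
    · rintro ⟨h1, h2⟩
      have h2' := h2.symm
      have h3 := hh a h2'
      have h4 : 1 ≤ a := by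
        rcases Nat.eq_zero_or_pos a with h | h
        · rw [h, Nat.coprime_zero_left] at h2'; omega
        · exact h
      by_cases h5 : 2 * a < e
      · left; exact ⟨⟨h4, by omega⟩, h2'⟩
      · right
        refine ⟨e - a, mem_B.2 ⟨⟨by omega, by omega⟩, ?_⟩, by omega⟩
        exact cop_sub h1.le h2'
    · rintro (⟨⟨h1, h2⟩, h3⟩ | ⟨b, hb, rfl⟩)
      · exact ⟨by omega, h3.symm⟩
      · rw [mem_B] at hb
        obtain ⟨⟨h1, h2⟩, h3⟩ := hb
  
        exact ⟨by omega, (cop_sub (by omega) h3).symm⟩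
  have h2 : Disjoint (B e) ((B e).image (fun b => e - b)) := by
    rw [disjoint_left]
    intro a ha ha'
    obtain ⟨b, hb, rfl⟩ := mem_image.1 ha'
    rw [mem_B] at ha hb
    have := hh b hb.2
    omega
  have h3 : #((B e).image (fun b => e - b)) = #(B e) := by
    refine card_image_of_injOn ?_
    intro a ha b hb h
    rw [mem_coe, mem_B] at ha hb
    simp only at h
    omega
  rw [Nat.totient, h1, card_union_of_disjoint h2, h3]
  omega

lemma ct_inv {L : Type} [Field L] (z : L) (hz : z ≠ 0) : ct z⁻¹ = - ct z := by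
  unfold ct
  rcases eq_or_ne z 1 with rfl | h1
  · simp
  · have h2 : z - 1 ≠ 0 := sub_ne_zero.2 h1
    have h3 : z⁻¹ - 1 ≠ 0 := by
      intro h
      apply h2
      have : z⁻¹ = 1 := sub_eq_zero.1 h
      rw [inv_eq_one] at this
      rw [this, sub_self]
    field_simp
    ring

section main

variable {L : Type} [Field L] {e : ℕ} {ζ : L}

lemma pw [NeZero e] (hζ : ζ ^ e = 1) {n m : ℕ} (h : (n : ZMod e) = m) : ζ ^ n = ζ ^ m := by
  rw [ZMod.natCast_eq_natCast_iff'] at h
  rw [pow_eq_pow_mod n hζ, h, ← pow_eq_pow_mod m hζ]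

/-- the odd function -/
noncomputable def kap (ζ : L) (x : (ZMod e)ˣ) : L := ct (ζ ^ ((x : ZMod e).val))

lemma kap_pos [NeZero e] (hζ : ζ ^ e = 1) (x : (ZMod e)ˣ) (n : ℕ) (h : (n : ZMod e) = x)
    (s : (ZMod e)ˣ) : kap ζ (s * x) = ct ((ζ ^ ((s : ZMod e).val)) ^ n) := by
  unfold kap
  rw [← pow_mul]
  congr 1
  apply pw hζ
  rw [ZMod.natCast_zmod_val, Nat.cast_mul, ZMod.natCast_zmod_val, h, Units.val_mul]

lemma kap_neg [NeZero e] (hζ : ζ ^ e = 1) (hζ0 : ζ ≠ 0) (x : (ZMod e)ˣ) (n : ℕ)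
    (h : (n : ZMod e) = -(x : ZMod e)) (s : (ZMod e)ˣ) :
    kap ζ (s * x) = - ct ((ζ ^ ((s : ZMod e).val)) ^ n) := by
  unfold kap
  rw [← ct_inv _ (pow_ne_zero _ (pow_ne_zero _ hζ0))]
  congr 1
  apply eq_inv_of_mul_eq_one_left
  rw [← pow_mul, ← pow_add]
  have : ζ ^ ((((s * x : (ZMod e)ˣ) : ZMod e).val) + (s : ZMod e).val * n) = ζ ^ 0 := by
    apply pw hζ
    rw [Nat.cast_add, ZMod.natCast_zmod_val, Nat.cast_mul, ZMod.natCast_zmod_val, h,
      Units.val_mul]
    push_cast
    ring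
  rw [this, pow_zero]

lemma kap_sgn [NeZero e] (hζ : ζ ^ e = 1) (hζ0 : ζ ≠ 0) (x : (ZMod e)ˣ) (n : ℕ)
    (h : (n : ZMod e) = x ∨ (n : ZMod e) = -(x : ZMod e)) :
    ∃ c : L, ∀ s : (ZMod e)ˣ, kap ζ (s * x) = c * ct ((ζ ^ ((s : ZMod e).val)) ^ n) := by
  rcases h with h | h
  · exact ⟨1, fun s => by rw [one_mul]; exact kap_pos hζ x n h s⟩
  · exact ⟨-1, fun s => by rw [neg_one_mul]; exact kap_neg hζ hζ0 x n h s⟩

end main

/-- representatives of pairs of classes -/
lemma exists_pair {G e : ℕ} (he : 3 ≤ e) (hG : e ≤ 2 * G ^ 2) [NeZero e] (x y : (ZMod e)ˣ) :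
    ∃ z : PB G e, ((z.1.1 : ZMod e) = x ∨ (z.1.1 : ZMod e) = -(x : ZMod e)) ∧
      ((z.1.2 : ZMod e) = y ∨ (z.1.2 : ZMod e) = -(y : ZMod e)) := by
  have hval : ∀ x : (ZMod e)ˣ, Nat.Coprime (x : ZMod e).val e ∧ 1 ≤ (x : ZMod e).val ∧
      (x : ZMod e).val < e := by
    intro x
    have h1 := ZMod.val_coe_unit_coprime x
    refine ⟨h1, ?_, ZMod.val_lt _⟩
    rcases Nat.eq_zero_or_pos (x : ZMod e).val with h | h
    · rw [h, Nat.coprime_zero_left] at h1; omega
    · exact h
  have hneg : ∀ n : ℕ, n ≤ e → ((e - n : ℕ) : ZMod e) = -(n : ZMod e) := by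
    intro n hn
    rw [Nat.cast_sub hn, ZMod.natCast_self, zero_sub]
  obtain ⟨hx1, hx2, hx3⟩ := hval x
  obtain ⟨hy1, hy2, hy3⟩ := hval y
  -- the first one
  obtain ⟨b, hb, hbx⟩ : ∃ b ∈ B e, (b : ZMod e) = x ∨ (b : ZMod e) = -(x : ZMod e) := by
    by_cases h : 2 * (x : ZMod e).val < e
    · exact ⟨_, mem_B.2 ⟨⟨hx2, by omega⟩, hx1⟩, .inl (ZMod.natCast_zmod_val _)⟩
    · have h2 : 2 * (x : ZMod e).val ≠ e := by
        intro h
        have h1 : (x : ZMod e).val ∣ e := ⟨2, by omega⟩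
        have h2 : (x : ZMod e).val = 1 := by
          have := Nat.gcd_eq_left h1
          rw [hx1] at this
          exact this.symm
        omega
      refine ⟨e - (x : ZMod e).val, mem_B.2 ⟨⟨by omega, by omega⟩, ?_⟩, .inr ?_⟩
      · exact cop_sub hx3.le hx1
      · rw [hneg _ hx3.le, ZMod.natCast_zmod_val]
  have hb' := mem_B.1 hb
  set n := (y : ZMod e).val with hn
  by_cases hg : Nat.gcd b n ≤ G
  · refine ⟨⟨(b, n), mem_PB.2 ⟨⟨hb, hy2, hy3⟩, hy1, hg⟩⟩, hbx, .inl ?_⟩
    exact ZMod.natCast_zmod_val _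
  · refine ⟨⟨(b, e - n), mem_PB.2 ⟨⟨hb, ?_, ?_⟩, ?_, ?_⟩⟩, hbx, .inr ?_⟩
    · simp only; omega
    · simp only; omega
    · exact cop_sub hy3.le hy1
    · simp only
      by_contra hg'
      have h1 : Nat.Coprime (Nat.gcd b n) (Nat.gcd b (e - n)) := by
        rw [Nat.Coprime]
        set g := Nat.gcd (Nat.gcd b n) (Nat.gcd b (e - n)) with hgdef
        have h2 : g ∣ b := (Nat.gcd_dvd_left _ _).trans (Nat.gcd_dvd_left _ _)
        have h3 : g ∣ n := (Nat.gcd_dvd_left _ _).trans (Nat.gcd_dvd_right _ _)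
        have h4 : g ∣ e - n := (Nat.gcd_dvd_right _ _).trans (Nat.gcd_dvd_right _ _)
        have h5 : g ∣ e := by
          have := Nat.dvd_add h3 h4
          rwa [Nat.add_sub_cancel' hy3.le] at this
        have h6 := Nat.dvd_gcd h2 h5
        rw [hb'.2] at h6
        exact Nat.dvd_one.1 h6
      have h2 : Nat.gcd b n * Nat.gcd b (e - n) ∣ b :=
        h1.mul_dvd_of_dvd_of_dvd (Nat.gcd_dvd_left _ _) (Nat.gcd_dvd_left _ _)
      have h3 := Nat.le_of_dvd (by omega) h2
      have h4 : (G + 1) * (G + 1) ≤ Nat.gcd b n * Nat.gcd b (e - n) :=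
        Nat.mul_le_mul (by omega) (by omega)
      have h5 : 2 * b ≤ e := by omega
      have h6 : 2 * ((G + 1) * (G + 1)) ≤ 2 * G ^ 2 := by linarith
      nlinarith
    · simp only
      rw [hneg _ hy3.le, hn, ZMod.natCast_zmod_val]

theorem stD3 : StD1 → StD2 → StD3 := by
  intro hD1 hD2 p _ G e he hep hG hK
  classical
  have hp := (Fact.out : p.Prime)
  have : NeZero e := ⟨by omega⟩
  set L := AlgebraicClosure (ZMod p) with hL
  have hchar : CharP L p := charP_of_injective_algebraMap (algebraMap (ZMod p) L).injective p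
  have hne : ∀ n : ℕ, 0 < n → n < p → (n : L) ≠ 0 := by
    intro n h0 h1 h
    rw [CharP.cast_eq_zero_iff L p] at h
    exact absurd (Nat.le_of_dvd h0 h) (by omega)
  have : NeZero (e : L) := ⟨hne e (by omega) hep⟩
  obtain ⟨ζ, hζ⟩ := HasEnoughRootsOfUnity.exists_primitiveRoot L e
  have hζe := hζ.pow_eq_one
  have hζ0 : ζ ≠ 0 := hζ.ne_zero (by omega)
  have hB2 := two_card_B he
  have hcardU : Fintype.card (ZMod e)ˣ = 2 * #(B e) := by
    rw [ZMod.card_units_eq_totient, hB2]
  -- the parametrisation of the primitive roots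
  let I := {ζ : L // IsPrimitiveRoot ζ e}
  let φ : (ZMod e)ˣ → I := fun s => ⟨ζ ^ ((s : ZMod e).val),
    hζ.pow_of_coprime _ (ZMod.val_coe_unit_coprime s)⟩
  have hφ : Function.Surjective φ := by
    rintro ⟨ξ, hξ⟩
    obtain ⟨i, hi, hc, hi2⟩ := (hζ.isPrimitiveRoot_iff).1 hξ
    refine ⟨ZMod.unitOfCoprime i hc, Subtype.ext ?_⟩
    simp only [φ]
    rw [← hi2]
    apply pw hζe
    rw [ZMod.natCast_zmod_val, ZMod.coe_unitOfCoprime]
  let r : (I → L) →ₗ[L] ((ZMod e)ˣ → L) := LinearMap.funLeft L L φ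
  have hr : Function.Injective r := LinearMap.funLeft_injective_of_surjective L L φ hφ
  -- (i)
  have h1 := hD1 p e he hep
  let v : B e → I → L := fun b ζ => ct ((ζ : L) ^ (b : ℕ))
  have h2 : Module.finrank L (Submodule.span L (Set.range v)) ≤
      Module.finrank L (Submodule.span L (Set.range (fun b : (ZMod e)ˣ =>
        fun s : (ZMod e)ˣ => kap ζ (s * b)))) := by
    rw [LinearEquiv.finrank_eq (Submodule.equivMapOfInjective r hr
      (Submodule.span L (Set.range v))), Submodule.map_span]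
    refine Submodule.finrank_mono (Submodule.span_le.2 ?_)
    rintro _ ⟨_, ⟨b, rfl⟩, rfl⟩
    have hb := mem_B.1 b.2
    refine Submodule.subset_span ⟨ZMod.unitOfCoprime b hb.2, ?_⟩
    funext s
    simp only
    rw [kap_pos hζe _ (b : ℕ) (by rw [ZMod.coe_unitOfCoprime])]
    rfl
  -- (ii)
  have hodd : ∀ a : (ZMod e)ˣ, kap ζ (-1 * a) = - kap ζ a := by
    intro a
    have h3 := kap_neg hζe hζ0 (-1) 1 (by rw [Nat.cast_one, Units.val_neg, Units.val_one, neg_neg]) a
    rw [mul_comm, h3, pow_one]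
    rfl
  have hm1 : (-1 : (ZMod e)ˣ) ≠ 1 := by
    intro h
    have h3 : (-1 : ZMod e) = 1 := by
      have := congrArg (fun u : (ZMod e)ˣ => (u : ZMod e)) h
      simpa using this
    have h4 : ((2 : ℕ) : ZMod e) = 0 := by
      push_cast
      linear_combination -h3
    rw [ZMod.natCast_eq_zero_iff] at h4
    exact absurd (Nat.le_of_dvd (by norm_num) h4) (by omega)
  have h3 := hD2 (ZMod e)ˣ (-1) L (kap ζ) hm1 (by simp) (by
      rw [ZMod.card_units_eq_totient]
      exact hne _ (Nat.totient_pos.2 (by omega)) ((Nat.totient_le e).trans_lt hep)) hodd (by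
      rw [hcardU]
      have h1' : #(B e) ≤ Module.finrank (ZMod p) (Ker p e) +
        Module.finrank L (Submodule.span L (Set.range v)) := h1
      omega)
  -- (iii)
  let w : PB G e → I → L := fun x ζ => ct ((ζ : L) ^ x.1.1) * ct ((ζ : L) ^ x.1.2)
  have h4 : Module.finrank L (Submodule.span L (Set.range (fun x : (ZMod e)ˣ × (ZMod e)ˣ =>
      fun s : (ZMod e)ˣ => kap ζ (s * x.1) * kap ζ (s * x.2)))) ≤
      Module.finrank L (Submodule.span L (Set.range w)) := by
    have : FiniteDimensional L (Submodule.span L (Set.range w)) :=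
      FiniteDimensional.span_of_finite L (Set.finite_range w)
    refine le_trans ?_ (Submodule.finrank_map_le r (Submodule.span L (Set.range w)))
    refine Submodule.finrank_mono (Submodule.span_le.2 ?_)
    rintro _ ⟨⟨x, y⟩, rfl⟩
    obtain ⟨z, hz1, hz2⟩ := exists_pair he hG x y
    obtain ⟨c, hc⟩ := kap_sgn hζe hζ0 x _ hz1
    obtain ⟨d, hd⟩ := kap_sgn hζe hζ0 y _ hz2
    have h5 : (fun s : (ZMod e)ˣ => kap ζ (s * x) * kap ζ (s * y)) = (c * d) • r (w z) := by
      funext s
      simp only [Pi.smul_apply, smul_eq_mul]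
      rw [hc, hd]
      have h6 : r (w z) s = ct ((ζ ^ ((s : ZMod e).val)) ^ z.1.1) *
        ct ((ζ ^ ((s : ZMod e).val)) ^ z.1.2) := rfl
      rw [h6]
      ring
    rw [SetLike.mem_coe]
    simp only
    rw [h5]
    exact Submodule.smul_mem _ _ (Submodule.mem_map_of_mem (Submodule.subset_span ⟨z, rfl⟩))
  have h5 := ascent w (Ker3 p G e) (fun l hl => by
    funext ⟨ξ, hξ⟩
    have := hl ξ hξ
    simp only [Finset.sum_apply, Pi.smul_apply, smul_eq_mul, Pi.zero_apply]
    exact this)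
  rw [Fintype.card_coe] at h5
  rw [hcardU] at h3
  omega

end Pool.Agent.T9h46.SR
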