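import Pool.Agent.T9h59.SR.Spec3

/-!
# P9: a sum over primes and multiples
-/

set_option autoImplicit false

namespace Pool.Agent.T9h46.SR

open Finset Pool.Agent.T9h59.SR

lemma summable_log : Summable (fun n : ℕ => Real.log n / (n : ℝ) ^ 2) := by
  have h1 : Summable (fun n : ℕ => 2 * (1 / (n : ℝ) ^ (3 / 2 : ℝ))) :=
    (Real.summable_one_div_nat_rpow.2 (by norm_num)).mul_left 2
  refine Summable.of_nonneg_of_le (fun n => div_nonneg (Real.log_natCast_nonneg n) (by positivity))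
    (fun n => ?_) h1
  rcases Nat.eq_zero_or_pos n with rfl | hn
  · simp
  · have hn' : (0 : ℝ) < n := by exact_mod_cast hn
    have h2 : Real.log n ≤ (n : ℝ) ^ (1 / 2 : ℝ) / (1 / 2) :=
      Real.log_le_rpow_div hn'.le (by norm_num)
    have h3 : (n : ℝ) ^ 2 = (n : ℝ) ^ (1 / 2 : ℝ) * (n : ℝ) ^ (3 / 2 : ℝ) := by
      rw [← Real.rpow_add hn', ← Real.rpow_natCast]
      norm_num
    have h4 : 0 < (n : ℝ) ^ (1 / 2 : ℝ) := Real.rpow_pos_of_pos hn' _
    have h5 : 0 < (n : ℝ) ^ (3 / 2 : ℝ) := Real.rpow_pos_of_pos hn' _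
    rw [h3, div_le_iff₀ (by positivity)]
    calc Real.log n ≤ (n : ℝ) ^ (1 / 2 : ℝ) / (1 / 2) := h2
      _ = _ := by field_simp

lemma inner_le (C l : ℕ) (hl : 1 ≤ l) :
    ∑ e ∈ (Ioc 0 C).filter (l ∣ ·), ((e / l : ℕ) : ℝ) * Real.log l / 2 ≤
      (C : ℝ) ^ 2 * (Real.log l / (l : ℝ) ^ 2) := by
  have hl' : (0 : ℝ) < l := by exact_mod_cast hl
  have hlog := Real.log_natCast_nonneg l
  have h1 : ∀ e ∈ (Ioc 0 C).filter (l ∣ ·), ((e / l : ℕ) : ℝ) * Real.log l / 2 ≤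
      (C : ℝ) / l * Real.log l := by
    intro e he
    have h2 : e ≤ C := (mem_Ioc.1 (mem_filter.1 he).1).2
    have h3 : ((e / l : ℕ) : ℝ) ≤ (C : ℝ) / l :=
      Nat.cast_div_le.trans (by gcongr)
    have h4 : ((e / l : ℕ) : ℝ) * Real.log l ≤ (C : ℝ) / l * Real.log l :=
      mul_le_mul_of_nonneg_right h3 hlog
    have h5 : 0 ≤ (C : ℝ) / l * Real.log l := by positivity
    linarith
  refine (sum_le_sum h1).trans ?_
  rw [sum_const, Nat.Ioc_filter_dvd_card_eq_div, nsmul_eq_mul]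
  have h3 : ((C / l : ℕ) : ℝ) ≤ (C : ℝ) / l := Nat.cast_div_le
  calc ((C / l : ℕ) : ℝ) * ((C : ℝ) / l * Real.log l) ≤
        (C : ℝ) / l * ((C : ℝ) / l * Real.log l) :=
        mul_le_mul_of_nonneg_right h3 (by positivity)
    _ = _ := by field_simp

theorem stP9 : StP9 := by
  refine ⟨∑' n : ℕ, Real.log n / (n : ℝ) ^ 2, fun C => ?_⟩
  have h1 : ∑ e ∈ Icc 3 C, ∑ l ∈ e.primeFactors, ((e / l : ℕ) : ℝ) * Real.log l / 2 ≤
      ∑ e ∈ Ioc 0 C, ∑ l ∈ (Icc 1 C).filter (· ∣ e), ((e / l : ℕ) : ℝ) * Real.log l / 2 := by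
    have hnn : ∀ e l : ℕ, 0 ≤ ((e / l : ℕ) : ℝ) * Real.log l / 2 := fun e l => by
      have := Real.log_natCast_nonneg l
      positivity
    refine (sum_le_sum fun e he => ?_).trans (sum_le_sum_of_subset_of_nonneg ?_
      fun e _ _ => sum_nonneg fun l _ => hnn e l)
    · refine sum_le_sum_of_subset_of_nonneg (fun l hl => ?_) (fun l _ _ => hnn e l)
      rw [mem_Icc] at he
      have h2 := Nat.le_of_mem_primeFactors hl
      have h3 := Nat.dvd_of_mem_primeFactors hl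
      have h4 := (Nat.prime_of_mem_primeFactors hl).one_lt
      exact mem_filter.2 ⟨mem_Icc.2 ⟨h4.le, h2.trans he.2⟩, h3⟩
    · intro e he
      rw [mem_Icc] at he
      exact mem_Ioc.2 ⟨by omega, he.2⟩
  have h2 : ∑ e ∈ Ioc 0 C, ∑ l ∈ (Icc 1 C).filter (· ∣ e), ((e / l : ℕ) : ℝ) * Real.log l / 2 =
      ∑ l ∈ Icc 1 C, ∑ e ∈ (Ioc 0 C).filter (l ∣ ·), ((e / l : ℕ) : ℝ) * Real.log l / 2 := by
    simp only [sum_filter]
    exact sum_comm
  rw [h2] at h1
  refine h1.trans ((sum_le_sum fun l hl => inner_le C l (mem_Icc.1 hl).1).trans ?_)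
  rw [← mul_sum, mul_comm]
  exact mul_le_mul_of_nonneg_right (summable_log.sum_le_tsum _
    fun l _ => div_nonneg (Real.log_natCast_nonneg l) (by positivity)) (by positivity)

end Pool.Agent.T9h46.SR
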