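import Pool.Agent.T9h46.SR.CotSum

/-!
# From characteristic `p` to characteristic `0` for small combinations of cotangents
-/

set_option autoImplicit false

namespace Pool.Agent.T9h46.SR

open Finset Polynomial

/-- an inverse of `b` modulo `e` -/
def bi (e b : ℕ) : ℕ := ((b : ZMod e)⁻¹).val

theorem mul_bi (e b : ℕ) (he : 3 ≤ e) (hb : b.Coprime e) : b * bi e b ≡ 1 [MOD e] := by
  have : NeZero e := ⟨by omega⟩
  rw [← ZMod.natCast_eq_natCast_iff, Nat.cast_mul, bi, ZMod.natCast_val, ZMod.cast_id', id,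
    ZMod.coe_mul_inv_eq_one b hb, Nat.cast_one]

/-- The polynomial `∑ l_b (t^b + 1) (1 + t^b + ⋯ + t^(b (b' - 1)))`. -/
noncomputable def U (e : ℕ) (l : ℕ → ℤ) : ℤ[X] :=
  ∑ b ∈ B e, C (l b) * ((X ^ b + 1) * ∑ i ∈ range (bi e b), (X ^ b) ^ i)

theorem aeval_U {F : Type*} [Field F] (e : ℕ) (he : 3 ≤ e) (l : ℕ → ℤ) (ζ : F)
    (hζ : IsPrimitiveRoot ζ e) :
    aeval ζ (U e l) = (ζ - 1) * ∑ b ∈ B e, (l b : F) * ct (ζ ^ b) := by
  unfold U
  rw [map_sum, Finset.mul_sum]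
  refine Finset.sum_congr rfl fun b hb => ?_
  have hb' := mem_B.1 hb
  simp only [map_mul, map_add, map_pow, aeval_X, map_one, map_sum, aeval_C]
  have h1 : ζ ^ b - 1 ≠ 0 := by
    intro h
    have h2 : ζ ^ b = 1 := sub_eq_zero.1 h
    have h3 := Nat.le_of_dvd (by omega) ((hζ.pow_eq_one_iff_dvd b).1 h2)
    omega
  have h2 : (∑ i ∈ range (bi e b), (ζ ^ b) ^ i) * (ζ ^ b - 1) = ζ - 1 := by
    rw [geom_sum_mul, ← pow_mul]
    have h3 : ζ ^ (b * bi e b) = ζ ^ 1 := by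
      have h4 : (b * bi e b) % e = 1 % e := mul_bi e b he hb'.2
      rw [pow_eq_pow_mod (b * bi e b) hζ.pow_eq_one, h4, ← pow_eq_pow_mod 1 hζ.pow_eq_one]
    rw [h3, pow_one]
  have h3 : ∑ i ∈ range (bi e b), (ζ ^ b) ^ i = (ζ - 1) / (ζ ^ b - 1) := by
    rw [eq_div_iff h1, h2]
  rw [h3]
  unfold ct
  simp only [algebraMap_int_eq, eq_intCast]
  ring

theorem small_zero_aux (e : ℕ) (he : 3 ≤ e) (K : Type) [Field K] [NumberField K] (z : K)
    (hz : IsPrimitiveRoot z e) (M : ℤ[X])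
    (hM : ∀ ζ : ℂ, IsPrimitiveRoot ζ e → ‖aeval ζ M‖ < 1) (ζ : ℂ) (hζ : IsPrimitiveRoot ζ e) :
    aeval ζ M = 0 := by
  have : NeZero e := ⟨by omega⟩
  let a : NumberField.RingOfIntegers K := aeval hz.toInteger M
  have ha : (a : K) = aeval z M := by
    show algebraMap (NumberField.RingOfIntegers K) K (aeval hz.toInteger M) = _
    rw [← aeval_algebraMap_apply]
    rfl
  have hw : ∀ w : NumberField.InfinitePlace K, w (a : K) < 1 := by
    intro w
    rw [← NumberField.InfinitePlace.norm_embedding_eq, ha]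
    have h1 : w.embedding (aeval z M) = aeval (w.embedding z) M := by
      have := aeval_algHom_apply (w.embedding.toIntAlgHom) z M
      exact this.symm
    rw [h1]
    exact hM _ (hz.map_of_injective w.embedding.injective)
  have ha0 : a = 0 := by
    by_contra h
    obtain ⟨w⟩ : Nonempty (NumberField.InfinitePlace K) := inferInstance
    exact absurd (NumberField.InfinitePlace.one_le_of_lt_one h (w := w) fun z _ => hw z)
      (not_le.2 (hw w))
  have h0 : aeval z M = 0 := by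
    rw [← ha, ha0]
    rfl
  have h1 : cyclotomic e ℚ ∣ M.map (algebraMap ℤ ℚ) := by
    rw [cyclotomic_eq_minpoly_rat hz (by omega)]
    apply minpoly.dvd
    rw [aeval_map_algebraMap]
    exact h0
  obtain ⟨Q, hQ⟩ := h1
  have h2 : aeval ζ (M.map (algebraMap ℤ ℚ)) = 0 := by
    rw [hQ, map_mul]
    have h3 : aeval ζ (cyclotomic e ℚ) = 0 := by
      rw [aeval_def, eval₂_eq_eval_map, map_cyclotomic]
      exact (isRoot_cyclotomic_iff (R := ℂ)).2 hζ
    rw [h3, zero_mul]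
  rwa [aeval_map_algebraMap] at h2

/-- An integral polynomial whose values at all complex primitive roots are small vanishes
there. -/
theorem small_zero (e : ℕ) (he : 3 ≤ e) (M : ℤ[X])
    (hM : ∀ ζ : ℂ, IsPrimitiveRoot ζ e → ‖aeval ζ M‖ < 1) (ζ : ℂ) (hζ : IsPrimitiveRoot ζ e) :
    aeval ζ M = 0 := by
  have : NeZero e := ⟨by omega⟩
  have : NeZero ((e : ℕ) : ℚ) := ⟨by exact_mod_cast (show e ≠ 0 by omega)⟩
  have h := CyclotomicField.isCyclotomicExtension e ℚ
  obtain ⟨z, hz⟩ := h.exists_isPrimitiveRoot (Set.mem_singleton e) (by omega)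
  exact small_zero_aux e he (CyclotomicField e ℚ) z hz M hM ζ hζ

/-- The cyclotomic polynomial divides modulo `p`. -/
theorem dvd_mod (p : ℕ) [Fact p.Prime] (e : ℕ) (he : 3 ≤ e) (hep : e < p) (l : ℕ → ℤ)
    (F : Type) [Field F] [IsAlgClosed F] [Algebra (ZMod p) F]
    (h : ∀ ζ : F, IsPrimitiveRoot ζ e → ∑ b ∈ B e, (l b : F) * ct (ζ ^ b) = 0) :
    cyclotomic e (ZMod p) ∣ (U e l).map (Int.castRingHom (ZMod p)) := by
  have : NeZero e := ⟨by omega⟩
  have : CharP F p := charP_of_injective_algebraMap (algebraMap (ZMod p) F).injective p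
  have : NeZero (e : F) := ⟨by
    intro h0
    rw [CharP.cast_eq_zero_iff F p e] at h0
    exact absurd (Nat.le_of_dvd (by omega) h0) (by omega)⟩
  have h1 : cyclotomic e F ∣ (U e l).map (Int.castRingHom F) := by
    obtain ⟨ζ, hζ⟩ := IsAlgClosed.exists_root (cyclotomic e F) (by
      rw [degree_cyclotomic]
      have := Nat.totient_pos.2 (show 0 < e by omega)
      exact_mod_cast this.ne')
    have hζ' : IsPrimitiveRoot ζ e := isRoot_cyclotomic_iff.1 hζ
    rw [cyclotomic_eq_prod_X_sub_primitiveRoots hζ']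
    refine Finset.prod_dvd_of_coprime ?_ ?_
    · intro x _ y _ hxy
      exact isCoprime_X_sub_C_of_isUnit_sub (sub_ne_zero.2 hxy).isUnit
    · intro x hx
      rw [dvd_iff_isRoot]
      have hx' := isPrimitiveRoot_of_mem_primitiveRoots hx
      have h2 := aeval_U e he l x hx'
      rw [h x hx', mul_zero, aeval_def] at h2
      rw [IsRoot, eval_map]
      exact h2
  rw [← map_dvd_map' (algebraMap (ZMod p) F), map_cyclotomic, Polynomial.map_map]
  have h2 : (algebraMap (ZMod p) F).comp (Int.castRingHom (ZMod p)) = Int.castRingHom F :=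
    RingHom.ext_int _ _
  rw [h2]
  exact h1

/-- (P2b) the norm argument: from characteristic `p` to characteristic `0`, for small integral
coefficients -/
theorem lift (p : ℕ) [Fact p.Prime] (e : ℕ) (he : 3 ≤ e) (hep : e < p) (H : ℝ)
    (hH : H * (e * (1 + Real.log e)) < p) (l : ℕ → ℤ) (hl : ∀ b ∈ B e, |(l b : ℝ)| ≤ H)
    (h : ∀ ζ : AlgebraicClosure (ZMod p), IsPrimitiveRoot ζ e →
      ∑ b ∈ B e, (l b : AlgebraicClosure (ZMod p)) * ct (ζ ^ b) = 0) :
    ∀ ζ : ℂ, IsPrimitiveRoot ζ e → ∑ b ∈ B e, (l b : ℂ) * ct (ζ ^ b) = 0 := by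
  have : NeZero e := ⟨by omega⟩
  have hp := (Fact.out : p.Prime)
  have he0 : (0 : ℝ) < e := by positivity
  have h2 := dvd_mod p e he hep l (AlgebraicClosure (ZMod p)) h
  have hmon : (cyclotomic e ℤ).Monic := cyclotomic.monic e ℤ
  have h3 : (U e l %ₘ cyclotomic e ℤ).map (Int.castRingHom (ZMod p)) = 0 := by
    rw [map_modByMonic _ hmon, map_cyclotomic]
    exact (modByMonic_eq_zero_iff_dvd (cyclotomic.monic e _)).2 h2
  have h4 : C (p : ℤ) ∣ U e l %ₘ cyclotomic e ℤ := by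
    rw [C_dvd_iff_dvd_coeff]
    intro i
    have h5 := congrArg (fun q => q.coeff i) h3
    simp only [coeff_map, coeff_zero, eq_intCast] at h5
    exact (ZMod.intCast_zmod_eq_zero_iff_dvd _ p).1 h5
  obtain ⟨M, hM⟩ := h4
  have hU : ∀ ζ : ℂ, IsPrimitiveRoot ζ e → aeval ζ (U e l) = p * aeval ζ M := by
    intro ζ hζ
    have h5 := modByMonic_add_div (U e l) (cyclotomic e ℤ)
    rw [hM] at h5
    have h6 := congrArg (aeval ζ) h5
    rw [map_add, map_mul, map_mul] at h6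
    have h7 : aeval ζ (cyclotomic e ℤ) = 0 := by
      rw [aeval_def, eval₂_eq_eval_map, map_cyclotomic]
      exact (isRoot_cyclotomic_iff (R := ℂ)).2 hζ
    rw [h7, zero_mul, add_zero] at h6
    rw [← h6]
    simp
  have hsmall : ∀ ζ : ℂ, IsPrimitiveRoot ζ e → ‖aeval ζ M‖ < 1 := by
    intro ζ hζ
    have h5 := hU ζ hζ
    rw [aeval_U e he l ζ hζ] at h5
    have hz1 : ‖ζ - 1‖ ≤ 2 := by
      have : ‖ζ‖ = 1 := hζ.norm'_eq_one (by omega)
      calc ‖ζ - 1‖ ≤ ‖ζ‖ + ‖(1 : ℂ)‖ := norm_sub_le _ _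
        _ = 2 := by rw [this, norm_one]; norm_num
    have hH0 : 0 ≤ H := by
      have hb : 1 ∈ B e := mem_B.2 ⟨⟨le_rfl, by omega⟩, Nat.coprime_one_left e⟩
      exact (abs_nonneg _).trans (hl 1 hb)
    have hs : ‖∑ b ∈ B e, (l b : ℂ) * ct (ζ ^ b)‖ ≤ H * (e / 2 * (1 + Real.log e)) := by
      calc ‖∑ b ∈ B e, (l b : ℂ) * ct (ζ ^ b)‖ ≤ ∑ b ∈ B e, ‖(l b : ℂ) * ct (ζ ^ b)‖ :=
            norm_sum_le _ _
        _ ≤ ∑ b ∈ B e, H * ‖ct (ζ ^ b)‖ := by
            refine Finset.sum_le_sum fun b hb => ?_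
            rw [norm_mul]
            refine mul_le_mul_of_nonneg_right ?_ (norm_nonneg _)
            rw [Complex.norm_intCast]
            exact hl b hb
        _ = H * ∑ b ∈ B e, ‖ct (ζ ^ b)‖ := by rw [Finset.mul_sum]
        _ ≤ _ := mul_le_mul_of_nonneg_left (cot_sum e he ζ hζ) hH0
    have hp0 : (0 : ℝ) < p := by exact_mod_cast hp.pos
    have h6 : (p : ℝ) * ‖aeval ζ M‖ < p * 1 := by
      have h7 : ‖(p : ℂ) * aeval ζ M‖ = p * ‖aeval ζ M‖ := by
        rw [norm_mul, Complex.norm_natCast]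
      rw [← h7, ← h5, norm_mul, mul_one]
      calc ‖ζ - 1‖ * ‖∑ b ∈ B e, (l b : ℂ) * ct (ζ ^ b)‖
          ≤ 2 * (H * (e / 2 * (1 + Real.log e))) :=
            mul_le_mul hz1 hs (norm_nonneg _) (by norm_num)
        _ = H * (e * (1 + Real.log e)) := by ring
        _ < p := hH
    exact lt_of_mul_lt_mul_left h6 hp0.le
  intro ζ hζ
  have h5 := hU ζ hζ
  rw [small_zero e he M hsmall ζ hζ, mul_zero, aeval_U e he l ζ hζ] at h5
  rcases mul_eq_zero.1 h5 with h6 | h6
  · exact absurd (sub_eq_zero.1 h6) (hζ.ne_one (by omega))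
  · exact h6

end Pool.Agent.T9h46.SR
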