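import Mathlib

/-!
# The sum of the absolute values of the cotangents
-/

set_option autoImplicit false

namespace Pool.Agent.T9h46.SR

open Finset

/-- the `b` with `0 < b < e / 2` prime to `e` -/
def B (e : ℕ) : Finset ℕ := (Finset.Ico 1 ((e + 1) / 2)).filter (fun b => Nat.Coprime b e)

/-- `(z + 1) / (z - 1)`; for `z = exp (2 i x)` this is `- i cot x` -/
def ct {F : Type*} [Field F] (z : F) : F := (z + 1) / (z - 1)

theorem mem_B {e b : ℕ} : b ∈ B e ↔ (1 ≤ b ∧ b < (e + 1) / 2) ∧ Nat.Coprime b e := by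
  unfold B
  rw [Finset.mem_filter, Finset.mem_Ico]

/-- The distance of `m` to the multiples of `e`. -/
def nr (e m : ℕ) : ℕ := min (m % e) (e - m % e)

theorem nr_mem (e m : ℕ) (he : 3 ≤ e) (hm : m.Coprime e) :
    1 ≤ nr e m ∧ nr e m < (e + 1) / 2 := by
  have hre : m % e < e := Nat.mod_lt _ (by omega)
  have hrc : (m % e).Coprime e := by
    unfold Nat.Coprime
    rw [(Nat.mod_modEq m e).gcd_eq]
    exact hm
  have h0 : m % e ≠ 0 := by
    intro h
    rw [h, Nat.coprime_zero_left] at hrc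
    omega
  have h2 : 2 * (m % e) ≠ e := by
    intro h
    have h3 : (m % e) ∣ e := ⟨2, by omega⟩
    have h4 := Nat.Coprime.eq_one_of_dvd hrc h3
    omega
  unfold nr
  rcases le_total (m % e) (e - m % e) with h | h
  · rw [min_eq_left h]; omega
  · rw [min_eq_right h]; omega

theorem nr_bound (e m : ℕ) (he : 3 ≤ e) (z : ℂ)
    (hz : z = Complex.exp (2 * Real.pi * Complex.I * ((m : ℂ) / e))) :
    4 * (nr e m : ℝ) / e ≤ ‖z - 1‖ := by
  have he0 : (0 : ℝ) < e := by positivity
  have he0' : (e : ℂ) ≠ 0 := by exact_mod_cast he0.ne'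
  have hre : m % e < e := Nat.mod_lt _ (by omega)
  have hz2 : z = Complex.exp (Complex.I * ((2 * Real.pi * ((m % e : ℕ) : ℝ) / e : ℝ) : ℂ)) := by
    rw [hz]
    have e1 : (m : ℂ) = e * ((m / e : ℕ) : ℂ) + ((m % e : ℕ) : ℂ) := by
      exact_mod_cast (Nat.div_add_mod m e).symm
    have e2 : 2 * Real.pi * Complex.I * ((m : ℂ) / e) =
        Complex.I * ((2 * Real.pi * ((m % e : ℕ) : ℝ) / e : ℝ) : ℂ) +
          ((m / e : ℕ) : ℂ) * (2 * Real.pi * Complex.I) := by
      rw [e1]
      push_cast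
      field_simp
      ring
    rw [e2]
    exact Complex.exp_periodic.nat_mul _ _
  rw [hz2, Complex.norm_exp_I_mul_ofReal_sub_one, Real.norm_eq_abs]
  have hx : 2 * Real.pi * ((m % e : ℕ) : ℝ) / e / 2 = Real.pi * (((m % e : ℕ) : ℝ) / e) := by ring
  rw [hx]
  have key : ∀ s : ℕ, 2 * s ≤ e → 2 * (s : ℝ) / e ≤ Real.sin (Real.pi * ((s : ℝ) / e)) := by
    intro s hs
    have hs' : (s : ℝ) / e ≤ 1 / 2 := by
      rw [div_le_div_iff₀ he0 (by norm_num)]
      have : (2 * s : ℝ) ≤ e := by exact_mod_cast hs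
      linarith
    have h1 := Real.mul_le_sin (x := Real.pi * ((s : ℝ) / e)) (by positivity)
      (by nlinarith [Real.pi_pos])
    refine le_trans (le_of_eq ?_) h1
    field_simp
  refine le_trans ?_ (le_abs_self _)
  have h4 : 2 * (nr e m : ℝ) / e ≤ Real.sin (Real.pi * (((m % e : ℕ) : ℝ) / e)) := by
    unfold nr
    rcases le_total (m % e) (e - m % e) with h | h
    · rw [min_eq_left h]
      exact key _ (by omega)
    · rw [min_eq_right h]
      have h1 := key (e - m % e) (by omega)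
      refine h1.trans (le_of_eq ?_)
      rw [← Real.sin_pi_sub]
      congr 1
      rw [Nat.cast_sub hre.le]
      field_simp
      ring
  calc 4 * (nr e m : ℝ) / e = 2 * (2 * (nr e m : ℝ) / e) := by ring
    _ ≤ _ := by linarith

theorem ct_bound (e m : ℕ) (he : 3 ≤ e) (hm : m.Coprime e) (z : ℂ)
    (hz : z = Complex.exp (2 * Real.pi * Complex.I * ((m : ℂ) / e))) :
    ‖ct z‖ ≤ e / 2 * (1 / (nr e m : ℝ)) := by
  have he0 : (0 : ℝ) < e := by positivity
  have h1 : (0 : ℝ) < nr e m := by exact_mod_cast (nr_mem e m he hm).1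
  have h2 := nr_bound e m he z hz
  have h3 : 0 < 4 * (nr e m : ℝ) / e := by positivity
  have h4 : ‖z + 1‖ ≤ 2 := by
    have : ‖z‖ = 1 := by
      rw [hz]
      have : 2 * Real.pi * Complex.I * ((m : ℂ) / e) = ((2 * Real.pi * (m / e) : ℝ) : ℂ) * Complex.I := by
        push_cast; ring
      rw [this]
      exact Complex.norm_exp_ofReal_mul_I _
    calc ‖z + 1‖ ≤ ‖z‖ + ‖(1 : ℂ)‖ := norm_add_le _ _
      _ = 2 := by rw [this, norm_one]; norm_num
  unfold ct
  rw [norm_div]
  calc ‖z + 1‖ / ‖z - 1‖ ≤ 2 / (4 * (nr e m : ℝ) / e) :=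
        div_le_div₀ (by norm_num) h4 h3 h2
    _ = _ := by field_simp; ring

/-- (P2c) the sum of the absolute values of the cotangents -/
theorem cot_sum (e : ℕ) (he : 3 ≤ e) (ζ : ℂ) (hζ : IsPrimitiveRoot ζ e) :
    ∑ b ∈ B e, ‖ct (ζ ^ b)‖ ≤ e / 2 * (1 + Real.log e) := by
  have he0 : (0 : ℝ) < e := by positivity
  obtain ⟨j, hj, hjc, hz⟩ := (Complex.isPrimitiveRoot_iff ζ e (by omega)).1 hζ
  have h1 : ∀ b ∈ B e, ‖ct (ζ ^ b)‖ ≤ e / 2 * (1 / (nr e (j * b) : ℝ)) := by
    intro b hb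
    refine ct_bound e (j * b) he (Nat.Coprime.mul_left hjc (mem_B.1 hb).2) _ ?_
    rw [← hz, ← Complex.exp_nat_mul]
    congr 1
    push_cast
    ring
  have hinj : Set.InjOn (fun b => nr e (j * b)) (B e : Set ℕ) := by
    intro b hb c hc hbc
    have hb' := (mem_B.1 hb).1
    have hc' := (mem_B.1 hc).1
    have hbc' : nr e (j * b) = nr e (j * c) := hbc
    have hbe : (j * b) % e < e := Nat.mod_lt _ (by omega)
    have hce : (j * c) % e < e := Nat.mod_lt _ (by omega)
    have h2 : (j * b) % e = (j * c) % e ∨ (j * b) % e + (j * c) % e = e := by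
      unfold nr at hbc'
      rcases le_total ((j * b) % e) (e - (j * b) % e) with h | h <;>
        rcases le_total ((j * c) % e) (e - (j * c) % e) with h' | h'
      · rw [min_eq_left h, min_eq_left h'] at hbc'; left; exact hbc'
      · rw [min_eq_left h, min_eq_right h'] at hbc'; right; omega
      · rw [min_eq_right h, min_eq_left h'] at hbc'; right; omega
      · rw [min_eq_right h, min_eq_right h'] at hbc'; left; omega
    rcases h2 with h2 | h2
    · have h3 : b ≡ c [MOD e] := Nat.ModEq.cancel_left_of_coprime hjc.symm h2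
      have h4 : b % e = c % e := h3
      rw [Nat.mod_eq_of_lt (by omega), Nat.mod_eq_of_lt (by omega)] at h4
      exact h4
    · exfalso
      have h3 : j * (b + c) ≡ j * 0 [MOD e] := by
        show j * (b + c) % e = j * 0 % e
        rw [mul_add, Nat.add_mod, h2, Nat.mod_self, mul_zero, Nat.zero_mod]
      have h4 : (b + c) % e = 0 % e := Nat.ModEq.cancel_left_of_coprime hjc.symm h3
      rw [Nat.mod_eq_of_lt (by omega), Nat.zero_mod] at h4
      omega
  have hsub : (B e).image (fun b => nr e (j * b)) ⊆ Finset.Ico 1 ((e + 1) / 2) := by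
    intro r hr
    obtain ⟨b, hb, rfl⟩ := Finset.mem_image.1 hr
    exact Finset.mem_Ico.2 (nr_mem e (j * b) he (Nat.Coprime.mul_left hjc (mem_B.1 hb).2))
  calc ∑ b ∈ B e, ‖ct (ζ ^ b)‖ ≤ ∑ b ∈ B e, e / 2 * (1 / (nr e (j * b) : ℝ)) :=
        Finset.sum_le_sum h1
    _ = e / 2 * ∑ b ∈ B e, (1 / (nr e (j * b) : ℝ)) := by rw [Finset.mul_sum]
    _ = e / 2 * ∑ r ∈ (B e).image (fun b => nr e (j * b)), (1 / (r : ℝ)) := by
        rw [Finset.sum_image hinj]
    _ ≤ e / 2 * ∑ r ∈ Finset.Ico 1 ((e + 1) / 2), (1 / (r : ℝ)) := by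
        refine mul_le_mul_of_nonneg_left ?_ (by positivity)
        exact Finset.sum_le_sum_of_subset_of_nonneg hsub fun _ _ _ => by positivity
    _ ≤ e / 2 * (1 + Real.log e) := by
        refine mul_le_mul_of_nonneg_left ?_ (by positivity)
        have h5 : ∑ r ∈ Finset.Ico 1 ((e + 1) / 2), (1 / (r : ℝ)) ≤
            ∑ r ∈ Finset.Ico 1 (e + 1), (1 / (r : ℝ)) :=
          Finset.sum_le_sum_of_subset_of_nonneg
            (Finset.Ico_subset_Ico le_rfl (by omega)) fun _ _ _ => by positivity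
        refine h5.trans ?_
        have h6 := harmonic_le_one_add_log e
        refine le_trans (le_of_eq ?_) h6
        rw [Finset.sum_Ico_eq_sum_range, harmonic]
        push_cast
        refine Finset.sum_congr rfl fun i _ => ?_
        rw [one_div, add_comm]

end Pool.Agent.T9h46.SR
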